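import Pool.Agent.Lib.UF74.F
import Pool.Agent.Lib.UF43.C

set_option autoImplicit false

namespace Pool.Agent.Results.MP_70e206_co.OneThird

/-- `m` subsets of an `n`-element set whose pairwise unions (over `i < j`) are pairwise distinct. -/
def Admissible (n m : ℕ) : Prop :=
  ∃ A : Fin m → Finset (Fin n), ∀ i j k l : Fin m, i < j → k < l →
    A i ∪ A j = A k ∪ A l → i = k ∧ j = l

/-- The largest admissible `m`. -/
noncomputable def f (n : ℕ) : ℕ := sSup {m | Admissible n m}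

lemma bdd (n : ℕ) : BddAbove {m | Admissible n m} := by
  refine ⟨2 ^ n + 1, fun m hm => ?_⟩
  obtain ⟨A, hA⟩ := hm
  rcases m with _ | m
  · exact Nat.zero_le _
  have hinj : Function.Injective (fun j : Fin m => A 0 ∪ A j.succ) := by
    intro j l h
    exact Fin.succ_injective _ (hA 0 j.succ 0 l.succ (Fin.succ_pos _) (Fin.succ_pos _) h).2
  have := Fintype.card_le_of_injective _ hinj
  simp only [Fintype.card_fin, Fintype.card_finset] at this
  omega

theorem result (ε : ℝ) (h0 : 0 < ε) (h3 : (1 + ε) ^ 3 < 2) : ∃ N : ℕ, ∀ n ≥ N,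
    (1 + ε) ^ n < f n ∧ (f n : ℝ) < (1 + 0.4131 : ℝ) ^ n := by
  obtain ⟨N, hN⟩ := Filter.eventually_atTop.mp
    ((Pool.Agent.Lib.UF74.lower (1 + ε) (by linarith) h3).and Pool.Agent.Lib.UF43.upper)
  refine ⟨N, fun n hn => ⟨?_, ?_⟩⟩
  · obtain ⟨m, hm, hA⟩ := (hN n hn).1
    have h1 : m ≤ f n := le_csSup (bdd n) hA
    have h2 : (m : ℝ) ≤ f n := by exact_mod_cast h1
    linarith
  · obtain ⟨A, hA⟩ : Admissible n (f n) :=
      Nat.sSup_mem (s := {m | Admissible n m}) ⟨0, fun i => i.elim0, fun i => i.elim0⟩ (bdd n)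
    rw [show (1 + 0.4131 : ℝ) = 1.4131 by norm_num]
    exact (hN n hn).2 _ A hA

end Pool.Agent.Results.MP_70e206_co.OneThird
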